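import Pool.Agent.MP_52d740_an.Gap

/-!
# MP_52d740_an: a factor map of subshifts without continuous compensation function

Stated beside the frozen statement `S04677`, with the same subshifts and a quantitative conclusion.
-/

set_option autoImplicit false

namespace Pool.Agent.Results.MP_52d740_an.PressureGap

open Filter Pool.Agent.MP_52d740_an

/-- There are subshifts `X` (over `{0,1,2}`) and `Y` (over `{0,1}`) such that the one-block map `x ↦ ⌊x/2⌋` is a
factor map from `X` onto `Y`, and for every continuous `F` on `X` there are a function `φ` of finitely many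
coordinates and a constant `c > 0` such that the pressures at time `n` of `φ ∘ π + F` on `X` and of `φ` on `Y`
differ by at least `c`, for all large `n`. -/
theorem result :
    ∃ (X Y : Set (ℤ → ℕ)) (π : (ℤ → ℕ) → (ℤ → ℕ)),
      X.Nonempty ∧ IsClosed X ∧ (∀ x : ℤ → ℕ, x ∈ X ↔ (fun m : ℤ => x (m + 1)) ∈ X) ∧
      (∀ x ∈ X, ∀ i : ℤ, x i < 3) ∧
      IsClosed Y ∧ (∀ y : ℤ → ℕ, y ∈ Y ↔ (fun m : ℤ => y (m + 1)) ∈ Y) ∧
      (∀ y ∈ Y, ∀ i : ℤ, y i < 2) ∧
      (∀ (x : ℤ → ℕ) (i : ℤ), π x i = x i / 2) ∧ π '' X = Y ∧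
      ∀ F : (ℤ → ℕ) → ℝ, ContinuousOn F X →
        ∃ (φ : (ℤ → ℕ) → ℝ) (N : ℕ) (c : ℝ),
          (∀ y y' : ℤ → ℕ, (∀ i : ℤ, |i| ≤ N → y i = y' i) → φ y = φ y') ∧ 0 < c ∧
          ∀ᶠ n : ℕ in atTop,
            c ≤ |Real.log (Z X (fun x => φ (π x) + F x) n) / n - Real.log (Z Y φ n) / n| := by
  refine ⟨X, Y, pr, ⟨_, Orb_subset_X 0 ⟨0, rfl⟩⟩, isClosed_closure, mem_X_iff,
    fun x hx i => X_lt hx i, isClosed_Y, mem_Y_iff, ?_, fun _ _ => rfl, rfl, fun F hF => gap' hF⟩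
  rintro y ⟨x, hx, rfl⟩ i
  have h := X_lt hx i
  show x i / 2 < 2
  omega

end Pool.Agent.Results.MP_52d740_an.PressureGap
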